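import Pool.Agent.K1H17.IS.Fm

/-! Abundance for quotients of products of varieties by diagonal actions, in particular for isotrivial
fibrations. -/

set_option autoImplicit false
set_option linter.overlappingInstances false

open FF IntermediateField Pool.Agent.W619.PQ Pool.Agent.W619.PL Pool.Agent.W619.TW
  Pool.Agent.W619.Y Pool.Agent.K1H17.IS

namespace Pool.Agent.Results.MP_5ff3c6_ag.DiagonalQuotients

/-- Let `W i` (`i < r`) be projective varieties of dimensions `a i` over the complex numbers, with
function fields `M i`, let `L` be the function field of their product, `G` a finite group which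
acts on the product through actions on the factors (`IsDiagonal`), and `X` a projective manifold
birational to the quotient of the product by `G`. Let `s i g` be real numbers (weights) such that

* (`WeightCond`) every `g ≠ 1` in `G`, of order `d`, acts nontrivially on at least `d` factors, or
  the sum of `max (1 / d, s i g)` over the factors on which it acts nontrivially is greater than
  `1`; and
* for each `i`, the weights `s i g` are not positive, or (`OrbEffective`) the Kodaira dimension of
  `K + ∑ δ v v` on `W i / G` is not `-∞`, for some coefficients `δ v ≤ 1 - 1 / e v` with `δ v ≤ 1 - s i g`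
  for all `g` which fix pointwise a prime divisor over `v` (`e v` is the ramification index).

Then: if `K_X` is pseudo-effective, so are all `K_{W i}`; `κ (X) ≥ ∑ κ (W i)` and
`ν (X) ≤ ∑ ν (W i)`; and if the abundance conjecture `κ = ν` holds for all `W i`, it holds for `X`. -/
theorem result {L : Type} [Field L] [Algebra ℂ L] {r : ℕ} (M : Fin r → IntermediateField ℂ L)
    (a : Fin r → ℕ) (G : Subgroup (L ≃ₐ[ℂ] L)) [Finite G] (h : IsDiagonal M a G)
    (s : Fin r → (L ≃ₐ[ℂ] L) → ℝ)
    (hs : ∀ i, (∀ g ∈ G, s i g ≤ 0) ∨ OrbEffective (M i) G (a i) (s i)) (hg : WeightCond M G s) :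
    (IsPsef ℂ (fixedField G) (∑ i, a i) (fun _ => False) →
      ∀ i, IsPsef ℂ (M i) (a i) (fun _ => False)) ∧
    (∀ A : Fin r → ℕ, (∀ i, KodTr ℂ (M i) (a i) (A i)) →
      KodTr ℂ (fixedField G) (∑ i, a i) (∑ i, A i) ∧
      KodGe ℂ (fixedField G) (∑ i, a i) (fun _ => False) (∑ i, A i)) ∧
    (∀ A : Fin r → ℕ, (∀ i, NumLe ℂ (M i) (a i) (fun _ => False) (A i)) →
      NumLe ℂ (fixedField G) (∑ i, a i) (fun _ => False) (∑ i, A i)) ∧
    ((∀ i, Abundance ℂ (M i) (a i)) → Abundance ℂ (fixedField G) (∑ i, a i)) :=
  ⟨h.num.1, fun _ hA => h.kod s hs hg hA, h.num.2.2, fun hA => h.abundance s hs hg hA⟩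

end Pool.Agent.Results.MP_5ff3c6_ag.DiagonalQuotients
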