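import Pool.Agent.K1H17.MT.Main

/-! Mumford's problem on tensor differentials for varieties with a rationally connected fibration
over (a variety which dominates) a quotient of a product of varieties of arbitrary dimensions.

New in `Pool.Agent.K1H17`: the criterion for `κ ≥ 0` for quotients of products of arbitrary varieties
(`IS`, `kodairaNeg`), the definition of rational connectedness (`MT`). Theorem of the library used as
a tool: `TH466.QT.not_vanish` (pluricanonical forms of a subfield give tensor differentials). -/

set_option autoImplicit false
set_option linter.overlappingInstances false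

open FF IntermediateField Pool.Agent.W619.PQ Pool.Agent.W619.PL Pool.Agent.W619.TW
  Pool.Agent.W619.Y Pool.Agent.K1H17.IS Pool.Agent.K1H17.MT

namespace Pool.Agent.Results.MP_4329d7_ag.QuotientsOfVarieties

/-- Let `X` be a smooth projective variety of dimension `n` with function field `K`, and let
`X ⇢ V` be a dominant rational map whose generic fibre is rationally connected (for instance the
maximal rationally connected fibration of `X`). Let `Z i` (`i < r`) be varieties of dimensions
`a i` over the complex numbers, with function fields `M i` and with `κ (Z i) ≥ 0`, let `L` be the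
function field of their product, `G` a finite group which acts on the product through actions on
the factors (`IsDiagonal`), and suppose that there is a dominant rational map
`V ⇢ (Z 1 × ... × Z r) / G`, and that `V` is a point if all `Z i` are points. (For instance
`X = (W 1 × ... × W r) / G`, `Z i` is the base of the maximal rationally connected fibration of `W i`,
and `V` is the quotient of their product.) Let `s i g` be real numbers (weights) such that

* (`AgeCond`) for every `g ≠ 1` in `G`, of order `d`, the sum of `max (1 / d, s i g)` over the
  factors on which `g` acts nontrivially is at least `1`; and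
* for each `i`, the weights `s i g` are not positive, or (`OrbEffective`) the Kodaira dimension of
  `K + ∑ δ v v` on `Z i / G` is not `-∞`, for some coefficients `δ v ≤ 1 - 1 / e v` with `δ v ≤ 1 - s i g`
  for all `g` which fix pointwise a prime divisor over `v` (`e v` is the ramification index).

If `H⁰ (X, (Ω¹) ^ ⊗ m) = 0` for all `m ≥ 1`, then `V` is a point and `X` is rationally connected. -/
theorem result {K : Type} [Field K] [Algebra ℂ K] {n : ℕ} (hn : Algebra.trdeg ℂ K = n)
    (V : IntermediateField ℂ K) (hV : RationallyConnected V K)
    {L : Type} [Field L] [Algebra ℂ L] {r : ℕ} (M : Fin r → IntermediateField ℂ L)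
    (a : Fin r → ℕ) (G : Subgroup (L ≃ₐ[ℂ] L)) [Finite G] (h : IsDiagonal M a G)
    (s : Fin r → (L ≃ₐ[ℂ] L) → ℝ)
    (hs : ∀ i, (∀ g ∈ G, s i g ≤ 0) ∨ OrbEffective (M i) G (a i) (s i)) (hg : AgeCond M G s)
    (hκ : ∀ i, ¬ KodairaNeg ℂ (M i) (a i)) (φ : fixedField G →ₐ[ℂ] V)
    (hpt : (∀ i, a i = 0) → V = ⊥) (hT : TensorVanish ℂ K n) :
    V = ⊥ ∧ RationallyConnected ℂ K :=
  main hn V hV M a G h s hs hg hκ φ hpt hT

end Pool.Agent.Results.MP_4329d7_ag.QuotientsOfVarieties
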